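import Mathlib

namespace Pool.Agent.Results.MP_0dc576_pr.GapUpperBound

open scoped InnerProductSpace

/-- A chord diagram with `n` chords on the `2 n` sides of the polygon (side `x` joins the
vertices `x` and `x + 1`), as the fixed-point-free involution sending a side to its partner. -/
def IsDiagram (n : ℕ) (X : Equiv.Perm (Fin (2 * n))) : Prop :=
  ∀ x, X (X x) = x ∧ X x ≠ x

/-- The number of vertex classes: a chord joining the sides `x` and `y` identifies the
vertex `x` with the vertex `y + 1`; here `finRotate (2 * n)` is `y ↦ y + 1` modulo `2 n`. -/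
noncomputable def numV (n : ℕ) (X : Equiv.Perm (Fin (2 * n))) : ℕ :=
  Nat.card (Quot fun a b : Fin (2 * n) => b = finRotate (2 * n) (X a))

/-- The chord diagrams with `n` chords and genus `g`. -/
abbrev Omega (n g : ℕ) : Type :=
  {X : Equiv.Perm (Fin (2 * n)) // IsDiagram n X ∧ numV n X + 2 * g = n + 1}

noncomputable instance (n g : ℕ) : Fintype (Omega n g) := Fintype.ofFinite _

/-- `Y` is a chord swap of `X`: two chords `{A, B}` and `{C, D}` of `X` are replaced by
`{A, C}` and `{B, D}` (here `B = X A` and `D = X C`). -/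
def IsSwap {n : ℕ} (X Y : Equiv.Perm (Fin (2 * n))) : Prop :=
  ∃ A C, C ≠ A ∧ C ≠ X A ∧ Y A = C ∧ Y (X A) = X C ∧
    ∀ Z, Z ≠ A → Z ≠ X A → Z ≠ C → Z ≠ X C → Y Z = X Z

open Classical in
/-- The off-diagonal part of the kernel. -/
noncomputable def rate (n g : ℕ) (X Y : Omega n g) : ℝ :=
  if X ≠ Y ∧ IsSwap X.1 Y.1 then 1 / (4 * (n.choose 2 : ℝ)) else 0

/-- The kernel of the fixed genus chord swap chain. -/
noncomputable def kernel (n g : ℕ) (X Y : Omega n g) : ℝ :=
  if X = Y then 1 - ∑ Z, rate n g X Z else rate n g X Y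

/-- The second largest eigenvalue (with multiplicity) of the kernel: the largest eigenvalue
with an eigenfunction of mean zero. -/
noncomputable def lambda2 (n g : ℕ) : ℝ :=
  sSup {μ : ℝ | ∃ f : Omega n g → ℝ, f ≠ 0 ∧ ∑ X, f X = 0 ∧
    ∀ X, ∑ Y, kernel n g X Y * f Y = μ * f X}

/-- The spectral gap. -/
noncomputable def gap (n g : ℕ) : ℝ := 1 - lambda2 n g

/-! ### Eigenvalues and Rayleigh quotients -/

section Gen

variable {ι : Type} [Fintype ι] [DecidableEq ι]

/-- vectors of mean zero -/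
def zeroSum (ι : Type) [Fintype ι] : Submodule ℝ (EuclideanSpace ℝ ι) where
  carrier := {v | ∑ i, v i = 0}
  add_mem' := by
    intro a b ha hb
    simp only [Set.mem_ofPred_eq, PiLp.add_apply, Finset.sum_add_distrib] at *
    rw [ha, hb]; simp
  zero_mem' := by simp
  smul_mem' := by
    intro c x hx
    simp only [Set.mem_ofPred_eq, PiLp.smul_apply, smul_eq_mul, ← Finset.mul_sum] at *
    rw [hx]; simp

lemma exists_eigen (P : ι → ι → ℝ) (hsym : ∀ x y, P x y = P y x)
    (hrow : ∀ x, ∑ y, P x y = 1) (f : ι → ℝ) (hf : ∑ x, f x = 0) (hf0 : f ≠ 0) :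
    ∃ μ : ℝ, (∃ h : ι → ℝ, h ≠ 0 ∧ ∑ x, h x = 0 ∧ ∀ x, ∑ y, P x y * h y = μ * h x) ∧
      ∑ x, f x * ∑ y, P x y * f y ≤ μ * ∑ x, f x * f x := by
  set A : Matrix ι ι ℝ := Matrix.of P with hA
  have hAh : A.IsHermitian := by
    ext i j
    simp [hA, hsym i j]
  set T := Matrix.toEuclideanLin A with hT
  have hTs : T.IsSymmetric := Matrix.isSymmetric_toEuclideanLin_iff.2 hAh
  have hTa : ∀ (v : EuclideanSpace ℝ ι) (x : ι), T v x = ∑ y, P x y * v y := by
    intro v x
    simp [hT, hA, Matrix.toEuclideanLin, Matrix.mulVec, dotProduct]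
  have hE : ∀ v ∈ zeroSum ι, T v ∈ zeroSum ι := by
    intro v hv
    have hv' : ∑ i, v i = 0 := hv
    show ∑ i, T v i = 0
    simp only [hTa]
    rw [Finset.sum_comm]
    have : ∀ y, ∑ x, P x y * v y = v y := by
      intro y
      rw [← Finset.sum_mul]
      have : ∑ x, P x y = 1 := by
        rw [← hrow y]
        exact Finset.sum_congr rfl (fun x _ => hsym x y)
      rw [this, one_mul]
    simp only [this]
    exact hv'
  set S := T.restrict hE with hS
  have hSs : S.IsSymmetric := hTs.restrict_invariant hE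
  set F : zeroSum ι := ⟨WithLp.toLp 2 f, hf⟩ with hF
  have hF0 : F ≠ 0 := by
    intro h
    apply hf0
    have h1 : (F : EuclideanSpace ℝ ι) = 0 := by rw [h]; rfl
    funext x
    have := congrArg (fun v : EuclideanSpace ℝ ι => v x) h1
    simpa [hF] using this
  have : Nontrivial (zeroSum ι) := ⟨⟨F, 0, hF0⟩⟩
  have hev := hSs.hasEigenvalue_iSup_of_finiteDimensional
  set μ : ℝ := ⨆ x : {x : zeroSum ι // x ≠ 0}, RCLike.re ⟪S x, x⟫_ℝ / ‖(x : zeroSum ι)‖ ^ 2
    with hμ
  obtain ⟨v, hv⟩ := hev.exists_hasEigenvector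
  refine ⟨μ, ⟨fun x => (v : EuclideanSpace ℝ ι) x, ?_, v.2, ?_⟩, ?_⟩
  · intro h
    apply hv.2
    apply Subtype.ext
    ext x
    exact congrFun h x
  · intro x
    have h1 : S v = μ • v := hv.apply_eq_smul
    have h2 := congrArg (fun w : zeroSum ι => (w : EuclideanSpace ℝ ι) x) h1
    simp only [hS, LinearMap.coe_restrict_apply, Submodule.coe_smul, PiLp.smul_apply,
      smul_eq_mul] at h2
    rw [← hTa, h2]
  · have hb : BddAbove (Set.range fun x : {x : zeroSum ι // x ≠ 0} =>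
        RCLike.re ⟪S x, x⟫_ℝ / ‖(x : zeroSum ι)‖ ^ 2) := by
      refine ⟨‖LinearMap.toContinuousLinearMap S‖, ?_⟩
      rintro _ ⟨x, rfl⟩
      have hx : 0 < ‖(x : zeroSum ι)‖ := norm_pos_iff.2 x.2
      simp only
      rw [div_le_iff₀ (by positivity)]
      have h1 : RCLike.re ⟪S x, (x : zeroSum ι)⟫_ℝ ≤ ‖S x‖ * ‖(x : zeroSum ι)‖ := by
        simpa using real_inner_le_norm (S x) (x : zeroSum ι)
      have h2 : ‖S x‖ ≤ ‖LinearMap.toContinuousLinearMap S‖ * ‖(x : zeroSum ι)‖ :=
        (LinearMap.toContinuousLinearMap S).le_opNorm _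
      nlinarith
    have h1 := le_ciSup hb ⟨F, hF0⟩
    rw [← hμ] at h1
    simp only at h1
    have hx : 0 < ‖F‖ := norm_pos_iff.2 hF0
    rw [div_le_iff₀ (by positivity)] at h1
    have h2 : ‖F‖ ^ 2 = ∑ x, f x * f x := by
      have h4 : ‖F‖ ^ 2 = ‖(F : EuclideanSpace ℝ ι)‖ ^ 2 := rfl
      rw [h4, EuclideanSpace.norm_sq_eq]
      refine Finset.sum_congr rfl (fun x _ => ?_)
      rw [Real.norm_eq_abs, sq_abs, pow_two]
    have h3 : RCLike.re ⟪S F, F⟫_ℝ = ∑ x, f x * ∑ y, P x y * f y := by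
      have : (⟪S F, F⟫_ℝ : ℝ) = ⟪T (F : EuclideanSpace ℝ ι), (F : EuclideanSpace ℝ ι)⟫_ℝ := rfl
      rw [this]
      simp only [PiLp.inner_apply, hTa]
      simp [hF]
    rw [h2, h3] at h1
    exact h1

omit [DecidableEq ι] in
lemma bdd_eigen (P : ι → ι → ℝ) :
    BddAbove {μ : ℝ | ∃ f : ι → ℝ, f ≠ 0 ∧ ∑ x, f x = 0 ∧ ∀ x, ∑ y, P x y * f y = μ * f x} := by
  refine ⟨∑ x, ∑ y, |P x y|, ?_⟩
  rintro μ ⟨f, hf0, _, hf⟩
  obtain ⟨z, hz⟩ : ∃ z, f z ≠ 0 := by
    by_contra h
    push Not at h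
    exact hf0 (funext h)
  have hne : Nonempty ι := ⟨z⟩
  obtain ⟨x, hx⟩ := Finite.exists_max (fun x => |f x|)
  have hpos : 0 < |f x| := lt_of_lt_of_le (abs_pos.2 hz) (hx z)
  have h1 : |μ| * |f x| ≤ (∑ y, |P x y|) * |f x| := by
    rw [← abs_mul, ← hf x, Finset.sum_mul]
    refine le_trans (Finset.abs_sum_le_sum_abs _ _) (Finset.sum_le_sum fun y _ => ?_)
    rw [abs_mul]
    exact mul_le_mul_of_nonneg_left (hx y) (abs_nonneg _)
  have h2 : |μ| ≤ ∑ y, |P x y| := le_of_mul_le_mul_right h1 hpos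
  have h3 : ∑ y, |P x y| ≤ ∑ x, ∑ y, |P x y| :=
    Finset.single_le_sum (f := fun x => ∑ y, |P x y|)
      (fun _ _ => Finset.sum_nonneg fun _ _ => abs_nonneg _) (Finset.mem_univ x)
  exact le_trans (le_abs_self μ) (le_trans h2 h3)

/-- the indicator test function -/
lemma indicator_bound (P : ι → ι → ℝ) (hsym : ∀ x y, P x y = P y x)
    (hrow : ∀ x, ∑ y, P x y = 1) (S : Finset ι) (hS : S.Nonempty) (hS' : Sᶜ.Nonempty)
    (c : ℝ) (hc : ∀ x ∈ Sᶜ, ∑ y ∈ S, P x y ≤ c) :
    ∃ μ : ℝ, (∃ h : ι → ℝ, h ≠ 0 ∧ ∑ x, h x = 0 ∧ ∀ x, ∑ y, P x y * h y = μ * h x) ∧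
      1 - μ ≤ c * Fintype.card ι / S.card := by
  set N : ℝ := (Fintype.card ι : ℝ) with hN
  set a : ℝ := (S.card : ℝ) with ha
  have ha0 : 0 < a := by rw [ha]; exact_mod_cast hS.card_pos
  have haN : a + (Sᶜ.card : ℝ) = N := by
    rw [ha, hN, ← Finset.card_add_card_compl S]; push_cast; ring
  have hb0 : (0 : ℝ) < (Sᶜ.card : ℝ) := by exact_mod_cast hS'.card_pos
  have hN0 : 0 < N := by linarith
  set p : ℝ := a / N with hp
  have hpN : p * N = a := by rw [hp]; field_simp
  set u : ι → ℝ := fun x => if x ∈ S then 1 else 0 with hu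
  have hu1 : ∑ x, u x = a := by simp [hu, ha]
  set f : ι → ℝ := fun x => u x - p with hf
  have hsum : ∑ x, f x = 0 := by
    simp only [hf, Finset.sum_sub_distrib, hu1, Finset.sum_const, Finset.card_univ,
      nsmul_eq_mul]
    rw [← hN]; linarith [hpN, mul_comm p N]
  have hp1 : p < 1 := by rw [hp, div_lt_one hN0]; linarith
  have hp0 : 0 < p := div_pos ha0 hN0
  have hf0 : f ≠ 0 := by
    intro h
    obtain ⟨x, hx⟩ := hS
    have := congrFun h x
    simp [hf, hu, hx] at this
    linarith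
  obtain ⟨μ, h1, h2⟩ := exists_eigen P hsym hrow f hsum hf0
  refine ⟨μ, h1, ?_⟩
  have hff : ∑ x, f x * f x = a * (1 - p) := by
    have : ∀ x, f x * f x = u x * (1 - 2 * p) + p * p := by
      intro x
      by_cases hx : x ∈ S
      · simp [hf, hu, hx]; ring
      · simp [hf, hu, hx]
    simp only [this, Finset.sum_add_distrib, ← Finset.sum_mul, hu1, Finset.sum_const,
      Finset.card_univ, nsmul_eq_mul]
    rw [← hN]
    have : N * p * p = p * a := by rw [← hpN]; ring
    rw [this]; ring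
  have hPf : ∀ x, ∑ y, P x y * f y = ∑ y ∈ S, P x y - p := by
    intro x
    simp only [hf, mul_sub, Finset.sum_sub_distrib, ← Finset.sum_mul, hrow, one_mul]
    congr 1
    simp [hu]
  have hcol : ∀ y, ∑ x, P x y = 1 := by
    intro y
    rw [← hrow y]
    exact Finset.sum_congr rfl (fun x _ => hsym x y)
  have hfPf : ∑ x, f x * ∑ y, P x y * f y
      = a * (1 - p) - ∑ x ∈ Sᶜ, ∑ y ∈ S, P x y := by
    simp only [hPf]
    have e1 : ∀ x, f x * (∑ y ∈ S, P x y - p)
        = u x * (∑ y ∈ S, P x y) - p * (∑ y ∈ S, P x y) - p * f x := by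
      intro x; simp only [hf]; ring
    simp only [e1, Finset.sum_sub_distrib, ← Finset.mul_sum, hsum, mul_zero, sub_zero]
    have e2 : ∑ x, ∑ y ∈ S, P x y = a := by
      rw [Finset.sum_comm]
      simp [hcol, ha]
    have e3 : ∑ x, u x * (∑ y ∈ S, P x y) = ∑ x ∈ S, ∑ y ∈ S, P x y := by
      simp [hu, Finset.sum_ite_mem]
    have e4 : ∑ x ∈ S, ∑ y ∈ S, P x y + ∑ x ∈ Sᶜ, ∑ y ∈ S, P x y = a := by
      rw [← e2]; exact Finset.sum_add_sum_compl S _
    rw [e3, e2]
    linarith
  have hflow : ∑ x ∈ Sᶜ, ∑ y ∈ S, P x y ≤ (Sᶜ.card : ℝ) * c := by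
    refine le_trans (Finset.sum_le_sum hc) ?_
    simp
  rw [hff, hfPf] at h2
  have h3 : (1 - μ) * (a * (1 - p)) ≤ (Sᶜ.card : ℝ) * c := by linarith
  have h4 : a * (1 - p) = a * (Sᶜ.card : ℝ) / N := by
    have : 1 - p = (Sᶜ.card : ℝ) / N := by
      rw [hp]; field_simp; linarith
    rw [this]; ring
  rw [h4] at h3
  rw [le_div_iff₀ ha0]
  have h5 : (1 - μ) * a * (Sᶜ.card : ℝ) ≤ c * N * (Sᶜ.card : ℝ) := by
    have h6 : (1 - μ) * (a * (Sᶜ.card : ℝ) / N) * N ≤ (Sᶜ.card : ℝ) * c * N :=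
      mul_le_mul_of_nonneg_right h3 hN0.le
    have h7 : (1 - μ) * (a * (Sᶜ.card : ℝ) / N) * N = (1 - μ) * a * (Sᶜ.card : ℝ) := by
      field_simp
    rw [h7] at h6
    linarith
  exact le_of_mul_le_mul_right h5 hb0

end Gen

/-! ### The chain -/

lemma swap_symm {n : ℕ} {X Y : Equiv.Perm (Fin (2 * n))} (hX : IsDiagram n X)
    (h : IsSwap X Y) : IsSwap Y X := by
  obtain ⟨A, C, h1, h2, h3, h4, h5⟩ := h
  refine ⟨A, X A, (hX A).2, by rw [h3]; exact h2.symm, rfl, by rw [h3, h4], ?_⟩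
  intro Z z1 z2 z3 z4
  rw [h3] at z2
  rw [h4] at z4
  exact (h5 Z z1 z3 z2 z4).symm

/-- a swap creating the chord `{A, B}` is determined -/
lemma swap_det {n : ℕ} {X Y : Equiv.Perm (Fin (2 * n))} (hX : IsDiagram n X)
    (hY : IsDiagram n Y) (h : IsSwap X Y) {A B : Fin (2 * n)} (hXA : X A ≠ B)
    (hYA : Y A = B) : Y (X A) = X B ∧ ∀ Z, Z ≠ A → Z ≠ X A → Z ≠ B → Z ≠ X B → Y Z = X Z := by
  obtain ⟨A', C', h1, h2, h3, h4, h5⟩ := h
  have hC : Y C' = A' := by rw [← h3, (hY A').1]
  have hD : Y (X C') = X A' := by rw [← h4, (hY _).1]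
  have hA : A = A' ∨ A = X A' ∨ A = C' ∨ A = X C' := by
    by_contra hcon
    push Not at hcon
    exact hXA (by rw [← h5 A hcon.1 hcon.2.1 hcon.2.2.1 hcon.2.2.2, hYA])
  rcases hA with rfl | rfl | rfl | rfl
  · have hB : B = C' := by rw [← hYA, h3]
    subst hB
    exact ⟨h4, h5⟩
  · have hB : B = X C' := by rw [← hYA, h4]
    subst hB
    rw [(hX A').1, (hX C').1]
    exact ⟨h3, fun Z z1 z2 z3 z4 => h5 Z z2 z1 z4 z3⟩
  · have hB : B = A' := by rw [← hYA, hC]
    subst hB
    exact ⟨hD, fun Z z1 z2 z3 z4 => h5 Z z3 z4 z1 z2⟩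
  · have hB : B = X A' := by rw [← hYA, hD]
    subst hB
    rw [(hX C').1, (hX A').1]
    exact ⟨hC, fun Z z1 z2 z3 z4 => h5 Z z4 z3 z2 z1⟩

lemma swap_unique {n : ℕ} {X Y Y' : Equiv.Perm (Fin (2 * n))} (hX : IsDiagram n X)
    (hY : IsDiagram n Y) (hY' : IsDiagram n Y') (h : IsSwap X Y) (h' : IsSwap X Y')
    {A B : Fin (2 * n)} (hXA : X A ≠ B) (hYA : Y A = B) (hYA' : Y' A = B) : Y = Y' := by
  obtain ⟨h1, h2⟩ := swap_det hX hY h hXA hYA
  obtain ⟨k1, k2⟩ := swap_det hX hY' h' hXA hYA'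
  have hB : Y B = A := by rw [← hYA, (hY A).1]
  have hB' : Y' B = A := by rw [← hYA', (hY' A).1]
  have h3 : Y (X B) = X A := by rw [← h1, (hY _).1]
  have k3 : Y' (X B) = X A := by rw [← k1, (hY' _).1]
  ext Z
  by_cases z1 : Z = A
  · rw [z1, hYA, hYA']
  by_cases z2 : Z = X A
  · rw [z2, h1, k1]
  by_cases z3 : Z = B
  · rw [z3, hB, hB']
  by_cases z4 : Z = X B
  · rw [z4, h3, k3]
  rw [h2 Z z1 z2 z3 z4, k2 Z z1 z2 z3 z4]

lemma rate_symm (n g : ℕ) (X Y : Omega n g) : rate n g X Y = rate n g Y X := by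
  unfold rate
  have : (X ≠ Y ∧ IsSwap X.1 Y.1) ↔ (Y ≠ X ∧ IsSwap Y.1 X.1) :=
    ⟨fun h => ⟨h.1.symm, swap_symm X.2.1 h.2⟩,
      fun h => ⟨h.1.symm, swap_symm Y.2.1 h.2⟩⟩
  by_cases h : X ≠ Y ∧ IsSwap X.1 Y.1
  · rw [if_pos h, if_pos (this.1 h)]
  · rw [if_neg h, if_neg (fun k => h (this.2 k))]

lemma kernel_symm (n g : ℕ) (X Y : Omega n g) : kernel n g X Y = kernel n g Y X := by
  unfold kernel
  by_cases h : X = Y
  · subst h; rfl
  · rw [if_neg h, if_neg (Ne.symm h), rate_symm]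

lemma rate_self (n g : ℕ) (X : Omega n g) : rate n g X X = 0 := by
  unfold rate
  simp

lemma kernel_row (n g : ℕ) (X : Omega n g) : ∑ Y, kernel n g X Y = 1 := by
  have h : ∀ Y, kernel n g X Y
      = rate n g X Y + (if X = Y then 1 - ∑ Z, rate n g X Z else 0) := by
    intro Y
    unfold kernel
    by_cases h : X = Y
    · subst h
      simp [rate_self]
    · simp [h]
  simp only [h, Finset.sum_add_distrib]
  simp

open Classical in
/-- the diagrams containing the chord `{A, B}` -/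
noncomputable def withChord (n g : ℕ) (A B : Fin (2 * n)) : Finset (Omega n g) :=
  Finset.univ.filter (fun X => X.1 A = B)

lemma flow (n g : ℕ) (A B : Fin (2 * n)) (X : Omega n g) (hX : X ∈ (withChord n g A B)ᶜ) :
    ∑ Y ∈ withChord n g A B, kernel n g X Y ≤ 1 / (4 * (n.choose 2 : ℝ)) := by
  have hXA : X.1 A ≠ B := by simpa [withChord] using hX
  have h0 : (0 : ℝ) ≤ 1 / (4 * (n.choose 2 : ℝ)) := by positivity
  have h1 : ∀ Y ∈ withChord n g A B, kernel n g X Y = rate n g X Y := by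
    intro Y hY
    have hne : X ≠ Y := by
      rintro rfl
      exact hXA (by simpa [withChord] using hY)
    unfold kernel
    rw [if_neg hne]
  rw [Finset.sum_congr rfl h1]
  by_cases hex : ∃ Y ∈ withChord n g A B, IsSwap X.1 Y.1
  · obtain ⟨Y, hY, hs⟩ := hex
    rw [Finset.sum_eq_single_of_mem Y hY]
    · unfold rate
      split_ifs
      · exact le_refl _
      · exact h0
    · intro Y' hY' hne
      unfold rate
      rw [if_neg]
      rintro ⟨_, hs'⟩
      apply hne
      have hYA : Y.1 A = B := by simpa [withChord] using hY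
      have hYA' : Y'.1 A = B := by simpa [withChord] using hY'
      exact Subtype.ext (swap_unique X.2.1 Y'.2.1 Y.2.1 hs' hs hXA hYA' hYA)
  · rw [Finset.sum_eq_zero]
    · exact h0
    · intro Y hY
      unfold rate
      rw [if_neg]
      rintro ⟨_, hs⟩
      exact hex ⟨Y, hY, hs⟩

lemma gap_le_aux (n g : ℕ) (A B : Fin (2 * n)) (h1 : (withChord n g A B).Nonempty)
    (h2 : ((withChord n g A B)ᶜ).Nonempty) :
    gap n g ≤ 1 / (4 * (n.choose 2 : ℝ)) * Fintype.card (Omega n g)
      / (withChord n g A B).card := by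
  obtain ⟨μ, h3, h4⟩ := indicator_bound (kernel n g) (kernel_symm n g) (kernel_row n g)
    (withChord n g A B) h1 h2 _ (flow n g A B)
  have h5 : μ ≤ lambda2 n g := le_csSup (bdd_eigen _) h3
  unfold gap
  linarith

lemma exists_chord (n g : ℕ) (hn : 2 ≤ n) (h : Nontrivial (Omega n g)) :
    ∃ A B : Fin (2 * n), (withChord n g A B).Nonempty ∧ ((withChord n g A B)ᶜ).Nonempty ∧
      (Fintype.card (Omega n g) : ℝ) ≤ (2 * n - 1) * (withChord n g A B).card := by
  obtain ⟨X, Y, hXY⟩ := h.exists_pair_ne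
  obtain ⟨A, hA⟩ : ∃ A, X.1 A ≠ Y.1 A := by
    by_contra hcon
    push Not at hcon
    exact hXY (Subtype.ext (Equiv.ext hcon))
  have hcard : ((Finset.univ.erase A : Finset (Fin (2 * n))).card : ℝ) = 2 * n - 1 := by
    rw [Finset.card_erase_of_mem (Finset.mem_univ A), Finset.card_univ, Fintype.card_fin,
      Nat.cast_sub (by omega)]
    push_cast; ring
  have hpos : (0 : ℝ) < 2 * n - 1 := by
    have : (2 : ℝ) ≤ n := by exact_mod_cast hn
    linarith
  have hsum : (Fintype.card (Omega n g) : ℝ)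
      = ∑ B ∈ Finset.univ.erase A, ((withChord n g A B).card : ℝ) := by
    have h1 := Finset.card_eq_sum_card_fiberwise (s := (Finset.univ : Finset (Omega n g)))
      (t := Finset.univ.erase A) (f := fun Z => Z.1 A)
      (fun Z _ => by
        simp only [Finset.coe_erase, Finset.coe_univ, Set.mem_sdiff, Set.mem_univ,
          Set.mem_singleton_iff, true_and]
        exact (Z.2.1 A).2)
    rw [Finset.card_univ] at h1
    rw [h1]
    push_cast
    refine Finset.sum_congr rfl (fun B _ => ?_)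
    congr 2
  have hne : (Finset.univ.erase A : Finset (Fin (2 * n))).Nonempty := by
    rw [← Finset.card_pos]
    have : (0 : ℝ) < ((Finset.univ.erase A : Finset (Fin (2 * n))).card : ℝ) := by
      rw [hcard]; exact hpos
    exact_mod_cast this
  obtain ⟨B, hB, hle⟩ := Finset.exists_le_of_sum_le hne
    (f := fun _ => (Fintype.card (Omega n g) : ℝ) / (2 * n - 1))
    (g := fun B => ((withChord n g A B).card : ℝ)) (by
      rw [← hsum, Finset.sum_const, nsmul_eq_mul, hcard]
      rw [mul_div_cancel₀ _ hpos.ne'])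
  have hle' : (Fintype.card (Omega n g) : ℝ) ≤ (2 * n - 1) * (withChord n g A B).card := by
    have := (div_le_iff₀ hpos).1 hle
    linarith
  refine ⟨A, B, ?_, ?_, hle'⟩
  · rw [← Finset.card_pos]
    have h2 : (0 : ℝ) < (Fintype.card (Omega n g) : ℝ) := by
      have : Nonempty (Omega n g) := ⟨X⟩
      exact_mod_cast Fintype.card_pos
    by_contra hcon
    have h3 : (withChord n g A B).card = 0 := by omega
    rw [h3] at hle'
    simp at hle'
  · by_cases hX : X.1 A = B
    · refine ⟨Y, ?_⟩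
      simp only [withChord, Finset.mem_compl, Finset.mem_filter, Finset.mem_univ, true_and]
      rw [← hX]
      exact Ne.symm hA
    · refine ⟨X, ?_⟩
      simpa [withChord] using hX

/-! ### There are at least two diagrams -/

/-- the partner in the standard diagram of genus `g`: `g` blocks of four consecutive sides
with two crossing chords, then chords between neighbouring sides -/
def hh (g x : ℕ) : ℕ :=
  if x < 4 * g then (if x % 4 < 2 then x + 2 else x - 2)
  else (if x % 2 = 0 then x + 1 else x - 1)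

lemma hh_lt {n g x : ℕ} (hg : 2 * g < n) (hx : x < 2 * n) : hh g x < 2 * n := by
  unfold hh
  split_ifs <;> omega

lemma hh_hh (g x : ℕ) : hh g (hh g x) = x := by
  unfold hh
  split_ifs <;> omega

lemma hh_ne (g x : ℕ) : hh g x ≠ x := by
  unfold hh
  split_ifs <;> omega

/-- the standard diagram -/
def std {n g : ℕ} (hg : 2 * g < n) : Equiv.Perm (Fin (2 * n)) :=
  Function.Involutive.toPerm (fun x => ⟨hh g x, hh_lt hg x.2⟩)
    (fun x => Fin.ext (hh_hh g x))

lemma std_val {n g : ℕ} (hg : 2 * g < n) (x : Fin (2 * n)) : (std hg x : ℕ) = hh g x := rfl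

lemma std_diagram {n g : ℕ} (hg : 2 * g < n) : IsDiagram n (std hg) :=
  fun x => ⟨Fin.ext (hh_hh g x), fun h => hh_ne g x (congrArg Fin.val h)⟩

lemma rot_val {m : ℕ} (x : Fin m) :
    ((finRotate m x : Fin m) : ℕ) = (if (x : ℕ) + 1 = m then (0 : ℕ) else (x : ℕ) + 1) := by
  cases m with
  | zero => exact x.elim0
  | succ m =>
    rw [coe_finRotate]
    by_cases h : x = Fin.last m
    · subst h; simp
    · have h2 : (x : ℕ) + 1 ≠ m + 1 := fun h' => h (Fin.ext (by simp; omega))
      rw [if_neg h, if_neg h2]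

/-- the identifications -/
def rel (n : ℕ) (X : Equiv.Perm (Fin (2 * n))) (a b : Fin (2 * n)) : Prop :=
  b = finRotate (2 * n) (X a)

lemma mk_eq {n g : ℕ} (hg : 2 * g < n) {a b : ℕ} (ha : a < 2 * n) (hb : b < 2 * n)
    (h : b = if hh g a + 1 = 2 * n then 0 else hh g a + 1) :
    Quot.mk (rel n (std hg)) ⟨a, ha⟩ = Quot.mk (rel n (std hg)) ⟨b, hb⟩ := by
  apply Quot.sound
  refine Fin.ext ?_
  rw [rot_val, std_val]
  exact h

lemma mk_zero {n g : ℕ} (hg : 2 * g < n) : ∀ a : ℕ, ∀ ha : a < 2 * n,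
    ¬ (4 * g ≤ a ∧ a % 2 = 1) →
    Quot.mk (rel n (std hg)) ⟨a, ha⟩ = Quot.mk (rel n (std hg)) ⟨0, by omega⟩ := by
  intro a
  induction a using Nat.strong_induction_on with
  | _ a ih =>
    intro ha h
    by_cases h0 : a = 0
    · subst h0; rfl
    by_cases h4 : 4 * g < a
    · rw [← ih (a - 2) (by omega) (by omega) (by omega)]
      refine (mk_eq hg _ _ ?_).symm
      unfold hh
      split_ifs <;> omega
    have h5 : a % 4 = 0 ∨ a % 4 = 1 ∨ a % 4 = 2 ∨ a % 4 = 3 := by omega
    rcases h5 with h5 | h5 | h5 | h5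
    · rw [← ih (a - 3) (by omega) (by omega) (by omega)]
      refine (mk_eq hg _ _ ?_).symm
      unfold hh
      split_ifs <;> omega
    · rw [← ih (a - 1) (by omega) (by omega) (by omega)]
      have e1 : Quot.mk (rel n (std hg)) ⟨a - 1, by omega⟩
          = Quot.mk (rel n (std hg)) ⟨a + 2, by omega⟩ := by
        refine mk_eq hg _ _ ?_
        unfold hh
        split_ifs <;> omega
      have e2 : Quot.mk (rel n (std hg)) ⟨a + 2, by omega⟩
          = Quot.mk (rel n (std hg)) ⟨a + 1, by omega⟩ := by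
        refine mk_eq hg _ _ ?_
        unfold hh
        split_ifs <;> omega
      have e3 : Quot.mk (rel n (std hg)) ⟨a + 1, by omega⟩
          = Quot.mk (rel n (std hg)) ⟨a, ha⟩ := by
        refine mk_eq hg _ _ ?_
        unfold hh
        split_ifs <;> omega
      rw [e1, e2, e3]
    · rw [← ih (a - 2) (by omega) (by omega) (by omega)]
      have e1 : Quot.mk (rel n (std hg)) ⟨a - 2, by omega⟩
          = Quot.mk (rel n (std hg)) ⟨a + 1, by omega⟩ := by
        refine mk_eq hg _ _ ?_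
        unfold hh
        split_ifs <;> omega
      have e2 : Quot.mk (rel n (std hg)) ⟨a + 1, by omega⟩
          = Quot.mk (rel n (std hg)) ⟨a, ha⟩ := by
        refine mk_eq hg _ _ ?_
        unfold hh
        split_ifs <;> omega
      rw [e1, e2]
    · rw [← ih (a - 3) (by omega) (by omega) (by omega)]
      refine (mk_eq hg _ _ ?_).symm
      unfold hh
      split_ifs <;> omega

/-- the class of a vertex -/
def cls {n g : ℕ} (x : Fin (2 * n)) : Option (Fin (n - 2 * g)) :=
  if h : 4 * g ≤ x ∧ (x : ℕ) % 2 = 1 then some ⟨(x - 4 * g) / 2, by have := x.2; omega⟩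
  else none

lemma cls_rel {n g : ℕ} (hg : 2 * g < n) (a b : Fin (2 * n)) (h : rel n (std hg) a b) :
    cls (g := g) a = cls (g := g) b := by
  have hv : (b : ℕ) = (if hh g a + 1 = 2 * n then (0 : ℕ) else hh g a + 1) := by
    have := congrArg Fin.val h
    rw [rot_val, std_val] at this
    exact this
  have ha := a.2
  by_cases h1 : 4 * g ≤ a ∧ (a : ℕ) % 2 = 1
  · have : a = b := by
      apply Fin.ext
      unfold hh at hv
      split_ifs at hv <;> omega
    rw [this]
  · have h2 : ¬ (4 * g ≤ b ∧ (b : ℕ) % 2 = 1) := by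
      intro h3
      unfold hh at hv
      split_ifs at hv <;> omega
    unfold cls
    rw [dif_neg h1, dif_neg h2]

lemma std_numV {n g : ℕ} (hg : 2 * g < n) : numV n (std hg) + 2 * g = n + 1 := by
  have h : Nat.card (Quot (rel n (std hg))) = Nat.card (Option (Fin (n - 2 * g))) := by
    refine Nat.card_eq_of_bijective (Quot.lift cls (cls_rel hg)) ⟨?_, ?_⟩
    · intro p q
      induction p using Quot.ind with
      | _ a =>
        induction q using Quot.ind with
        | _ b =>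
          intro hab
          have hab' : cls (g := g) a = cls (g := g) b := hab
          by_cases h1 : 4 * g ≤ a ∧ (a : ℕ) % 2 = 1
          · by_cases h2 : 4 * g ≤ b ∧ (b : ℕ) % 2 = 1
            · unfold cls at hab'
              rw [dif_pos h1, dif_pos h2] at hab'
              have h3 := congrArg Fin.val (Option.some.inj hab')
              simp only at h3
              have : a = b := Fin.ext (by omega)
              rw [this]
            · unfold cls at hab'
              rw [dif_pos h1, dif_neg h2] at hab'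
              cases hab'
          · by_cases h2 : 4 * g ≤ b ∧ (b : ℕ) % 2 = 1
            · unfold cls at hab'
              rw [dif_neg h1, dif_pos h2] at hab'
              cases hab'
            · rw [mk_zero hg a a.2 h1, mk_zero hg b b.2 h2]
    · intro o
      cases o with
      | none =>
        refine ⟨Quot.mk _ ⟨0, by omega⟩, ?_⟩
        show cls _ = none
        unfold cls
        rw [dif_neg]
        simp
      | some j =>
        have := j.2
        refine ⟨Quot.mk _ ⟨4 * g + 2 * j + 1, by omega⟩, ?_⟩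
        show cls _ = some j
        unfold cls
        rw [dif_pos (by simp only; omega)]
        congr 1
        apply Fin.ext
        simp only
        omega
  have h2 : numV n (std hg) = Nat.card (Quot (rel n (std hg))) := rfl
  rw [h2, h]
  simp
  omega

/-- rotation -/
def rotX {n : ℕ} (X : Equiv.Perm (Fin (2 * n))) : Equiv.Perm (Fin (2 * n)) :=
  (finRotate (2 * n)).symm.trans (X.trans (finRotate (2 * n)))

lemma rotX_diagram {n : ℕ} {X : Equiv.Perm (Fin (2 * n))} (hX : IsDiagram n X) :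
    IsDiagram n (rotX X) := by
  intro x
  constructor
  · show finRotate (2 * n) (X ((finRotate (2 * n)).symm
      (finRotate (2 * n) (X ((finRotate (2 * n)).symm x))))) = x
    rw [Equiv.symm_apply_apply, (hX _).1, Equiv.apply_symm_apply]
  · intro h
    have h1 : X ((finRotate (2 * n)).symm x) = (finRotate (2 * n)).symm x := by
      rw [Equiv.eq_symm_apply]
      exact h
    exact (hX _).2 h1

lemma rotX_numV {n : ℕ} (X : Equiv.Perm (Fin (2 * n))) : numV n (rotX X) = numV n X := by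
  refine Nat.card_congr (Quot.congr (finRotate (2 * n)).symm ?_)
  intro a b
  simp only [rotX, Equiv.trans_apply]
  constructor
  · intro h
    rw [h, Equiv.symm_apply_apply]
  · intro h
    rw [Equiv.symm_apply_eq] at h
    exact h

lemma nontrivial_Omega {n g : ℕ} (hn : 2 ≤ n) (hg : 2 * g < n) : Nontrivial (Omega n g) := by
  refine ⟨⟨⟨std hg, std_diagram hg, std_numV hg⟩,
    ⟨rotX (std hg), rotX_diagram (std_diagram hg), by rw [rotX_numV]; exact std_numV hg⟩, ?_⟩⟩
  intro h
  have h1 : std hg = rotX (std hg) := congrArg Subtype.val h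
  have h2 : std hg ⟨0, by omega⟩ = rotX (std hg) ⟨0, by omega⟩ := by rw [← h1]
  have h3 : (finRotate (2 * n)).symm ⟨0, by omega⟩ = ⟨2 * n - 1, by omega⟩ := by
    rw [Equiv.symm_apply_eq]
    apply Fin.ext
    rw [rot_val]
    simp only
    rw [if_pos (by omega)]
  have h4 : (rotX (std hg) ⟨0, by omega⟩ : ℕ)
      = if hh g (2 * n - 1) + 1 = 2 * n then 0 else hh g (2 * n - 1) + 1 := by
    simp only [rotX, Equiv.trans_apply, h3]
    rw [rot_val, std_val]
  have h5 := congrArg Fin.val h2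
  rw [h4, std_val] at h5
  unfold hh at h5
  simp only at h5
  split_ifs at h5 <;> omega

/-! ### Many diagrams have a given short chord -/

/-- the vertex permutation -/
def tau {n : ℕ} (X : Equiv.Perm (Fin (2 * n))) (a : Fin (2 * n)) : Fin (2 * n) :=
  finRotate (2 * n) (X a)

lemma tau_val {n : ℕ} (X : Equiv.Perm (Fin (2 * n))) (a : Fin (2 * n)) :
    (tau X a : ℕ) = (if (X a : ℕ) + 1 = 2 * n then 0 else (X a : ℕ) + 1) := rot_val _

lemma tau_rot {n : ℕ} (X : Equiv.Perm (Fin (2 * n))) (i : Fin (2 * n)) :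
    tau (rotX X) (finRotate (2 * n) i) = finRotate (2 * n) (tau X i) := by
  show finRotate (2 * n) (finRotate (2 * n) (X ((finRotate (2 * n)).symm
    (finRotate (2 * n) i)))) = _
  rw [Equiv.symm_apply_apply]
  rfl

/-- rotation of diagrams -/
noncomputable def rotE (n g : ℕ) : Omega n g ≃ Omega n g :=
  Equiv.ofBijective (fun X => ⟨rotX X.1, rotX_diagram X.2.1, by rw [rotX_numV]; exact X.2.2⟩)
    (Finite.injective_iff_bijective.1 (by
      intro X Y h
      have h1 : rotX X.1 = rotX Y.1 := congrArg Subtype.val h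
      apply Subtype.ext
      ext z
      have h2 := congrArg (fun Z : Equiv.Perm (Fin (2 * n)) =>
        (finRotate (2 * n)).symm (Z (finRotate (2 * n) z))) h1
      simp only [rotX, Equiv.trans_apply, Equiv.symm_apply_apply] at h2
      rw [h2]))

lemma rotE_val (n g : ℕ) (X : Omega n g) : (rotE n g X).1 = rotX X.1 := rfl

open Classical in
/-- number of diagrams for which the vertex is alone in its class -/
noncomputable def cnt1 (n g : ℕ) (i : Fin (2 * n)) : ℝ :=
  ∑ X : Omega n g, (if tau X.1 i = i then (1 : ℝ) else 0)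

lemma cnt1_rot (n g : ℕ) (i : Fin (2 * n)) : cnt1 n g (finRotate (2 * n) i) = cnt1 n g i := by
  unfold cnt1
  rw [← Equiv.sum_comp (rotE n g)]
  refine Finset.sum_congr rfl (fun X _ => ?_)
  rw [rotE_val, tau_rot]
  have : (finRotate (2 * n) (tau X.1 i) = finRotate (2 * n) i) ↔ (tau X.1 i = i) :=
    (finRotate (2 * n)).injective.eq_iff
  by_cases h : tau X.1 i = i
  · rw [if_pos h, if_pos (this.2 h)]
  · rw [if_neg h, if_neg (fun k => h (this.1 k))]

lemma const_of_rot {m : ℕ} (F : Fin m → ℝ) (hF : ∀ i, F (finRotate m i) = F i)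
    (i j : Fin m) : F i = F j := by
  have key : ∀ k : ℕ, ∀ hk : k < m, F ⟨k, hk⟩ = F ⟨0, by omega⟩ := by
    intro k
    induction k with
    | zero => intro hk; rfl
    | succ k ih =>
      intro hk
      rw [← ih (by omega), ← hF ⟨k, by omega⟩]
      congr 1
      apply Fin.ext
      rw [rot_val]
      simp only
      rw [if_neg (by omega)]
  rw [key i i.2, key j j.2]

lemma cnt1_eq {n g : ℕ} (hn : 2 ≤ n) :
    cnt1 n g ⟨1, by omega⟩ = ((withChord n g ⟨1, by omega⟩ ⟨0, by omega⟩).card : ℝ) := by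
  classical
  unfold cnt1 withChord
  rw [Finset.sum_boole]
  congr 2
  ext X
  simp only [Finset.mem_filter, Finset.mem_univ, true_and]
  constructor
  · intro h
    apply Fin.ext
    have h4 := congrArg Fin.val h
    rw [tau_val] at h4
    simp only at h4 ⊢
    split_ifs at h4 <;> omega
  · intro h
    apply Fin.ext
    rw [tau_val, h]
    simp only
    split_ifs <;> omega

lemma compl_nonempty {n g : ℕ} (hn : 2 ≤ n) (hg : 2 * g < n) :
    ((withChord n g ⟨1, by omega⟩ ⟨0, by omega⟩)ᶜ).Nonempty := by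
  by_contra hcon
  have hall : ∀ X : Omega n g, X.1 ⟨1, by omega⟩ = ⟨0, by omega⟩ := by
    intro X
    by_contra hX
    apply hcon
    refine ⟨X, ?_⟩
    simp only [withChord, Finset.mem_compl, Finset.mem_filter, Finset.mem_univ, true_and]
    exact hX
  obtain ⟨X, _, _⟩ := (nontrivial_Omega hn hg).exists_pair_ne
  have h1 := hall X
  have h2 := hall (rotE n g X)
  rw [rotE_val] at h2
  have h3 : (finRotate (2 * n)).symm (⟨1, by omega⟩ : Fin (2 * n)) = ⟨0, by omega⟩ := by
    rw [Equiv.symm_apply_eq]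
    apply Fin.ext
    rw [rot_val]
    simp only
    rw [if_neg (by omega)]
  have h4 : finRotate (2 * n) (X.1 ((finRotate (2 * n)).symm ⟨1, by omega⟩))
      = ⟨0, by omega⟩ := h2
  rw [h3] at h4
  have h5 : X.1 ⟨0, by omega⟩ = ⟨1, by omega⟩ := by rw [← h1, (X.2.1 _).1]
  rw [h5] at h4
  have h6 := congrArg Fin.val h4
  rw [rot_val] at h6
  simp only at h6
  split_ifs at h6 <;> omega

/-! ### Iterates -/

lemma iter_semi {α β : Type} (s : α → β) (F : β → β) (G : α → α)
    (h : ∀ a, F (s a) = s (G a)) (j : ℕ) (a : α) : F^[j] (s a) = s (G^[j] a) := by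
  induction j generalizing a with
  | zero => rfl
  | succ j ih => rw [Function.iterate_succ_apply, h, ih, Function.iterate_succ_apply]

lemma mp_semi {α β : Type} (s : α → β) (hs : Function.Injective s) (F : β → β) (G : α → α)
    (h : ∀ a, F (s a) = s (G a)) (a : α) :
    Function.minimalPeriod F (s a) = Function.minimalPeriod G a := by
  refine Function.minimalPeriod_eq_minimalPeriod_iff.2 (fun m => ?_)
  unfold Function.IsPeriodicPt Function.IsFixedPt
  rw [iter_semi s F G h]
  exact hs.eq_iff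

/-- removing a point from a cycle -/
lemma remove_point {α : Type} (T T3 : α → α) (hT : Function.Injective T) (w z t : α)
    (h1 : T w = t) (hz : ∀ j, T^[j] w ≠ z) (c2 : ∀ a, T a = w → T3 a = t)
    (c4 : ∀ a, a ≠ w → T a ≠ w → T a ≠ z → T3 a = T a) (k : ℕ) (hk : 1 ≤ k)
    (hp : Function.minimalPeriod T w = k + 1) :
    Function.minimalPeriod T3 t = k ∧ ∀ j, T3^[j] t ≠ z := by
  have hnp : ∀ i, 0 < i → i < k + 1 → T^[i] w ≠ w := by
    intro i hi hik h
    exact Function.not_isPeriodicPt_of_pos_of_lt_minimalPeriod (by omega)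
      (by rw [hp]; exact hik) h
  have hA : ∀ i, i < k → T3^[i] t = T^[i + 1] w := by
    intro i
    induction i with
    | zero => intro _; simp [h1]
    | succ i ih =>
      intro hi
      rw [Function.iterate_succ_apply', ih (by omega), c4 _ (hnp _ (by omega) (by omega))]
      · rw [← Function.iterate_succ_apply' T]
      · rw [← Function.iterate_succ_apply' T]
        exact hnp _ (by omega) (by omega)
      · rw [← Function.iterate_succ_apply' T]
        exact hz _
  have hB : T3^[k] t = t := by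
    obtain ⟨l, rfl⟩ := Nat.exists_eq_add_of_le' hk
    rw [Function.iterate_succ_apply', hA l (by omega)]
    apply c2
    rw [← Function.iterate_succ_apply' T]
    have := Function.iterate_minimalPeriod (f := T) (x := w)
    rw [hp] at this
    exact this
  have hper : Function.IsPeriodicPt T3 k t := hB
  refine ⟨?_, ?_⟩
  · have hd := hper.minimalPeriod_le hk
    have hd0 := hper.minimalPeriod_pos hk
    by_contra hne
    have hlt : Function.minimalPeriod T3 t < k := by omega
    have h2 : T3^[Function.minimalPeriod T3 t] t = t := Function.iterate_minimalPeriod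
    have h3 : T (T^[Function.minimalPeriod T3 t] w) = T w := by
      rw [← Function.iterate_succ_apply' T, ← hA _ hlt, h2, h1]
    exact hnp _ hd0 (by omega) (hT h3)
  · intro j
    have h2 : T3^[j] t = T3^[j % k] t := (hper.iterate_mod_apply j).symm
    rw [h2, hA _ (Nat.mod_lt _ hk)]
    exact hz _

/-- moving a point from a cycle to another one does not change the number of cycles -/
lemma move_point {α : Type} (T T3 : α → α) (v0 v1 t : α) (a1 : T v1 = t) (n1 : t ≠ v1)
    (_n0 : t ≠ v0) (n01 : v0 ≠ v1) (c1 : T3 v1 = v0) (c2 : ∀ a, T a = v1 → T3 a = t)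
    (c3 : ∀ a, T a = v0 → T3 a = v1)
    (c4 : ∀ a, a ≠ v1 → T a ≠ v1 → T a ≠ v0 → T3 a = T a) :
    Nat.card (Quot fun a b => b = T3 a) = Nat.card (Quot fun a b => b = T a) := by
  classical
  have hf : ∀ a b, (fun a b => b = T a) a b →
      (if a = v1 then Quot.mk (fun a b => b = T3 a) t else Quot.mk _ a) =
      (if b = v1 then Quot.mk (fun a b => b = T3 a) t else Quot.mk _ b) := by
    intro a b hb
    have hb' : b = T a := hb
    by_cases ha : a = v1
    · have : b = t := by rw [hb', ha, a1]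
      rw [if_pos ha, this, if_neg n1]
    · rw [if_neg ha]
      by_cases hb1 : b = v1
      · rw [if_pos hb1]
        exact Quot.sound (c2 a (by rw [← hb', hb1])).symm
      · rw [if_neg hb1]
        by_cases hb0 : b = v0
        · have s1 : Quot.mk (fun a b => b = T3 a) a = Quot.mk (fun a b => b = T3 a) v1 :=
            Quot.sound (c3 a (by rw [← hb', hb0])).symm
          have s2 : Quot.mk (fun a b => b = T3 a) v1 = Quot.mk (fun a b => b = T3 a) v0 :=
            Quot.sound c1.symm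
          rw [s1, s2, hb0]
        · exact Quot.sound (by rw [c4 a ha (by rw [← hb']; exact hb1)
            (by rw [← hb']; exact hb0), ← hb'])
  have hg : ∀ a b, (fun a b => b = T3 a) a b →
      (if a = v1 then Quot.mk (fun a b => b = T a) v0 else Quot.mk _ a) =
      (if b = v1 then Quot.mk (fun a b => b = T a) v0 else Quot.mk _ b) := by
    intro a b hb
    have hb' : b = T3 a := hb
    by_cases ha : a = v1
    · have : b = v0 := by rw [hb', ha, c1]
      rw [if_pos ha, this, if_neg n01]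
    · rw [if_neg ha]
      by_cases hT1 : T a = v1
      · have hbt : b = t := by rw [hb', c2 a hT1]
        have s1 : Quot.mk (fun a b => b = T a) a = Quot.mk (fun a b => b = T a) v1 :=
          Quot.sound hT1.symm
        have s2 : Quot.mk (fun a b => b = T a) v1 = Quot.mk (fun a b => b = T a) t :=
          Quot.sound a1.symm
        rw [hbt, if_neg n1, s1, s2]
      · by_cases hT0 : T a = v0
        · have hb1 : b = v1 := by rw [hb', c3 a hT0]
          rw [if_pos hb1]
          exact Quot.sound hT0.symm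
        · have hbT : b = T a := by rw [hb', c4 a ha hT1 hT0]
          rw [if_neg (by rw [hbT]; exact hT1)]
          exact Quot.sound hbT
  refine (Nat.card_congr ⟨Quot.lift _ hf, Quot.lift _ hg, ?_, ?_⟩).symm
  · intro q
    induction q using Quot.ind with
    | _ x =>
      show Quot.lift _ hg (if x = v1 then Quot.mk _ t else Quot.mk _ x) = Quot.mk _ x
      by_cases hx : x = v1
      · rw [if_pos hx]
        show (if t = v1 then Quot.mk (fun a b => b = T a) v0 else Quot.mk _ t) = Quot.mk _ x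
        rw [if_neg n1, hx]
        have s2 : Quot.mk (fun a b => b = T a) v1 = Quot.mk (fun a b => b = T a) t :=
          Quot.sound a1.symm
        exact s2.symm
      · rw [if_neg hx]
        show (if x = v1 then Quot.mk (fun a b => b = T a) v0 else Quot.mk _ x) = Quot.mk _ x
        rw [if_neg hx]
  · intro q
    induction q using Quot.ind with
    | _ x =>
      show Quot.lift _ hf (if x = v1 then Quot.mk _ v0 else Quot.mk _ x) = Quot.mk _ x
      by_cases hx : x = v1
      · rw [if_pos hx]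
        show (if v0 = v1 then Quot.mk (fun a b => b = T3 a) t else Quot.mk _ v0) = Quot.mk _ x
        rw [if_neg n01, hx]
        have s2 : Quot.mk (fun a b => b = T3 a) v1 = Quot.mk (fun a b => b = T3 a) v0 :=
          Quot.sound c1.symm
        exact s2.symm
      · rw [if_neg hx]
        show (if x = v1 then Quot.mk (fun a b => b = T3 a) t else Quot.mk _ x) = Quot.mk _ x
        rw [if_neg hx]

/-! ### The sliding injection -/

/-- values of the relabelling -/
def s2f (N m p : ℕ) : ℕ :=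
  if p = 0 then m + 1 else if p ≤ m then p else if p + 1 = N then 0 else p + 1

/-- values of the inverse relabelling -/
def s2i (N m p : ℕ) : ℕ :=
  if p = 0 then N - 1 else if p ≤ m then p else if p = m + 1 then 0 else p - 1

lemma s2f_s2i {N m p : ℕ} (hm : 2 ≤ m) (hm' : m + 2 ≤ N) (hp : p < N) :
    s2f N m (s2i N m p) = p := by
  have val : ∀ q, (q = 0 → s2f N m q = m + 1) ∧ (1 ≤ q → q ≤ m → s2f N m q = q) ∧
      (m < q → q + 1 = N → s2f N m q = 0) ∧ (m < q → q + 1 < N → s2f N m q = q + 1) := by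
    intro q
    refine ⟨?_, ?_, ?_, ?_⟩ <;> intros <;> unfold s2f <;> split_ifs <;> omega
  have key : (s2i N m p = N - 1 ∧ p = 0) ∨ (s2i N m p = p ∧ 1 ≤ p ∧ p ≤ m) ∨
      (s2i N m p = 0 ∧ p = m + 1) ∨ (s2i N m p = p - 1 ∧ m + 1 < p) := by
    unfold s2i
    split_ifs <;> omega
  rcases key with ⟨h1, h2⟩ | ⟨h1, h2, h3⟩ | ⟨h1, h2⟩ | ⟨h1, h2⟩
  · rw [h1, (val (N - 1)).2.2.1 (by omega) (by omega), h2]
  · rw [h1, (val p).2.1 h2 h3]
  · rw [h1, (val 0).1 rfl, h2]
  · rw [h1, (val (p - 1)).2.2.2 (by omega) (by omega)]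
    omega

lemma s2i_s2f {N m p : ℕ} (hm : 2 ≤ m) (hm' : m + 2 ≤ N) (hp : p < N) :
    s2i N m (s2f N m p) = p := by
  have key : (s2f N m p = m + 1 ∧ p = 0) ∨ (s2f N m p = p ∧ 1 ≤ p ∧ p ≤ m) ∨
      (s2f N m p = 0 ∧ m < p ∧ p + 1 = N) ∨ (s2f N m p = p + 1 ∧ m < p ∧ p + 1 < N) := by
    unfold s2f
    split_ifs <;> omega
  have val : ∀ q, (q = 0 → s2i N m q = N - 1) ∧ (1 ≤ q → q ≤ m → s2i N m q = q) ∧
      (q = m + 1 → s2i N m q = 0) ∧ (m + 1 < q → s2i N m q = q - 1) := by
    intro q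
    refine ⟨?_, ?_, ?_, ?_⟩ <;> intros <;> unfold s2i <;> split_ifs <;> omega
  rcases key with ⟨h1, h2⟩ | ⟨h1, h2, h3⟩ | ⟨h1, h2, h3⟩ | ⟨h1, h2, h3⟩
  · rw [h1, (val (m + 1)).2.2.1 rfl, h2]
  · rw [h1, (val p).2.1 h2 h3]
  · rw [h1, (val 0).1 rfl]
    omega
  · rw [h1, (val (p + 1)).2.2.2 (by omega)]
    omega

/-- the relabelling moving position `0` behind position `m` -/
def sg2 {n : ℕ} (m : ℕ) (hm : 2 ≤ m) (hm' : m + 2 ≤ 2 * n) : Equiv.Perm (Fin (2 * n)) where
  toFun x := ⟨s2f (2 * n) m x, by have := x.2; unfold s2f; split_ifs <;> omega⟩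
  invFun x := ⟨s2i (2 * n) m x, by have := x.2; unfold s2i; split_ifs <;> omega⟩
  left_inv x := Fin.ext (s2i_s2f hm hm' x.2)
  right_inv x := Fin.ext (s2f_s2i hm hm' x.2)

lemma s2_calc {N m p : ℕ} (hm : 2 ≤ m) (hm' : m + 2 ≤ N) (hp : p < N) :
    s2i N m (if s2f N m p + 1 = N then 0 else s2f N m p + 1) = (if p = 0 then m + 1 else
      if p = m then 0 else if p + 1 = N then 1 else p + 1) := by
  have key : (s2f N m p = m + 1 ∧ p = 0) ∨ (s2f N m p = p ∧ 1 ≤ p ∧ p ≤ m) ∨
      (s2f N m p = 0 ∧ m < p ∧ p + 1 = N) ∨ (s2f N m p = p + 1 ∧ m < p ∧ p + 1 < N) := by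
    unfold s2f
    split_ifs <;> omega
  have val : ∀ q, (q = 0 → s2i N m q = N - 1) ∧ (1 ≤ q → q ≤ m → s2i N m q = q) ∧
      (q = m + 1 → s2i N m q = 0) ∧ (m + 1 < q → s2i N m q = q - 1) := by
    intro q
    refine ⟨?_, ?_, ?_, ?_⟩ <;> intros <;> unfold s2i <;> split_ifs <;> omega
  rcases key with ⟨h1, h2⟩ | ⟨h1, h2, h3⟩ | ⟨h1, h2, h3⟩ | ⟨h1, h2, h3⟩
  · rw [h1]
    by_cases h5 : m + 1 + 1 = N
    · rw [if_pos h5, (val 0).1 rfl]
      split_ifs <;> omega
    · rw [if_neg h5, (val (m + 1 + 1)).2.2.2 (by omega)]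
      split_ifs <;> omega
  · rw [h1, if_neg (by omega)]
    by_cases h5 : p = m
    · rw [(val (p + 1)).2.2.1 (by omega)]
      split_ifs <;> omega
    · rw [(val (p + 1)).2.1 (by omega) (by omega)]
      split_ifs <;> omega
  · rw [h1, if_neg (by omega), (val (0 + 1)).2.1 (by omega) (by omega)]
    split_ifs <;> omega
  · rw [h1]
    by_cases h5 : p + 1 + 1 = N
    · rw [if_pos h5, (val 0).1 rfl]
      split_ifs <;> omega
    · rw [if_neg h5, (val (p + 1 + 1)).2.2.2 (by omega)]
      split_ifs <;> omega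

/-- the slid diagram -/
def slide2 {n : ℕ} (X : Equiv.Perm (Fin (2 * n))) (m : ℕ) (hm : 2 ≤ m)
    (hm' : m + 2 ≤ 2 * n) : Equiv.Perm (Fin (2 * n)) :=
  (sg2 m hm hm').symm.trans (X.trans (sg2 m hm hm'))

lemma slide2_diagram {n : ℕ} {X : Equiv.Perm (Fin (2 * n))} (hX : IsDiagram n X) (m : ℕ)
    (hm : 2 ≤ m) (hm' : m + 2 ≤ 2 * n) : IsDiagram n (slide2 X m hm hm') := by
  intro x
  constructor
  · show sg2 m hm hm' (X ((sg2 m hm hm').symm (sg2 m hm hm' (X ((sg2 m hm hm').symm x))))) = x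
    rw [Equiv.symm_apply_apply, (hX _).1, Equiv.apply_symm_apply]
  · intro h
    have h1 : X ((sg2 m hm hm').symm x) = (sg2 m hm hm').symm x := by
      rw [Equiv.eq_symm_apply]
      exact h
    exact (hX _).2 h1

/-- the conjugated vertex permutation -/
def tau3 {n : ℕ} (X : Equiv.Perm (Fin (2 * n))) (m : ℕ) (hm : 2 ≤ m) (hm' : m + 2 ≤ 2 * n)
    (a : Fin (2 * n)) : Fin (2 * n) :=
  (sg2 m hm hm').symm (finRotate (2 * n) (sg2 m hm hm' (X a)))

lemma tau3_val {n : ℕ} (X : Equiv.Perm (Fin (2 * n))) (m : ℕ) (hm : 2 ≤ m)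
    (hm' : m + 2 ≤ 2 * n) (a : Fin (2 * n)) :
    (tau3 X m hm hm' a : ℕ) = (if (X a : ℕ) = 0 then m + 1 else
      if (X a : ℕ) = m then 0 else if (X a : ℕ) + 1 = 2 * n then 1 else (X a : ℕ) + 1) := by
  have h1 : (tau3 X m hm hm' a : ℕ)
      = s2i (2 * n) m (finRotate (2 * n) (sg2 m hm hm' (X a)) : Fin (2 * n)) := rfl
  have h2 : ((sg2 m hm hm' (X a) : Fin (2 * n)) : ℕ) = s2f (2 * n) m (X a) := rfl
  rw [h1, rot_val, h2]
  exact s2_calc hm hm' (X a).2

lemma tau_slide2 {n : ℕ} (X : Equiv.Perm (Fin (2 * n))) (m : ℕ) (hm : 2 ≤ m)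
    (hm' : m + 2 ≤ 2 * n) (a : Fin (2 * n)) :
    tau (slide2 X m hm hm') (sg2 m hm hm' a) = sg2 m hm hm' (tau3 X m hm hm' a) := by
  show finRotate (2 * n) (sg2 m hm hm' (X ((sg2 m hm hm').symm (sg2 m hm hm' a)))) =
    sg2 m hm hm' ((sg2 m hm hm').symm (finRotate (2 * n) (sg2 m hm hm' (X a))))
  rw [Equiv.symm_apply_apply, Equiv.apply_symm_apply]

/-- the four facts on the conjugated vertex permutation -/
lemma tau3_facts {n : ℕ} (hn : 2 ≤ n) {X : Equiv.Perm (Fin (2 * n))} (m : ℕ)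
    (hm : 2 ≤ m) (hm' : m + 2 ≤ 2 * n) (h1 : (X ⟨1, by omega⟩ : ℕ) = m) :
    tau X ⟨1, by omega⟩ = ⟨m + 1, by omega⟩ ∧
    tau3 X m hm hm' ⟨1, by omega⟩ = ⟨0, by omega⟩ ∧
    (∀ a, tau X a = ⟨1, by omega⟩ → tau3 X m hm hm' a = ⟨m + 1, by omega⟩) ∧
    (∀ a, tau X a = ⟨0, by omega⟩ → tau3 X m hm hm' a = ⟨1, by omega⟩) ∧
    (∀ a, a ≠ ⟨1, by omega⟩ → tau X a ≠ ⟨1, by omega⟩ → tau X a ≠ ⟨0, by omega⟩ →
      tau3 X m hm hm' a = tau X a) := by
  refine ⟨?_, ?_, ?_, ?_, ?_⟩
  · apply Fin.ext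
    rw [tau_val, h1]
    simp only
    split_ifs <;> omega
  · apply Fin.ext
    rw [tau3_val, h1]
    simp only
    split_ifs <;> omega
  · intro a ha
    have h2 := congrArg Fin.val ha
    rw [tau_val] at h2
    simp only at h2
    apply Fin.ext
    rw [tau3_val]
    simp only
    split_ifs at h2 ⊢ <;> omega
  · intro a ha
    have h2 := congrArg Fin.val ha
    rw [tau_val] at h2
    simp only at h2
    apply Fin.ext
    rw [tau3_val]
    simp only
    split_ifs at h2 ⊢ <;> omega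
  · intro a ha h2 h3
    have k2 : (tau X a : ℕ) ≠ 1 := fun h => h2 (Fin.ext h)
    have k3 : (tau X a : ℕ) ≠ 0 := fun h => h3 (Fin.ext h)
    have k4 : (X a : ℕ) ≠ m := by
      intro h
      apply ha
      exact X.injective (Fin.ext (by rw [h, h1]))
    rw [tau_val] at k2 k3
    apply Fin.ext
    rw [tau3_val, tau_val]
    split_ifs at k2 k3 ⊢ <;> omega

lemma slide2_numV {n : ℕ} (hn : 2 ≤ n) {X : Equiv.Perm (Fin (2 * n))} (m : ℕ)
    (hm : 2 ≤ m) (hm' : m + 2 ≤ 2 * n) (h1 : (X ⟨1, by omega⟩ : ℕ) = m) :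
    numV n (slide2 X m hm hm') = numV n X := by
  have e1 : numV n (slide2 X m hm hm')
      = Nat.card (Quot fun a b => b = tau3 X m hm hm' a) := by
    refine Nat.card_congr (Quot.congr (sg2 m hm hm').symm ?_)
    intro a b
    show b = finRotate (2 * n) (sg2 m hm hm' (X ((sg2 m hm hm').symm a))) ↔
      (sg2 m hm hm').symm b = (sg2 m hm hm').symm
        (finRotate (2 * n) (sg2 m hm hm' (X ((sg2 m hm hm').symm a))))
    exact ((sg2 m hm hm').symm.injective.eq_iff).symm
  rw [e1]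
  obtain ⟨a1, c1, c2, c3, c4⟩ := tau3_facts hn m hm hm' h1
  have h2 := move_point (tau X) (tau3 X m hm hm') ⟨0, by omega⟩ ⟨1, by omega⟩
    ⟨m + 1, by omega⟩ a1 (fun h => by have := congrArg Fin.val h; simp only at this; omega)
    (fun h => by have := congrArg Fin.val h; simp only at this; omega)
    (fun h => by have := congrArg Fin.val h; simp only at this; omega) c1 c2 c3 c4
  exact h2

/-! ### The counts -/

/-- the class of `i` has `k` elements and does not contain `i - 1` -/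
def PP {n : ℕ} (k : ℕ) (X : Equiv.Perm (Fin (2 * n))) (i : Fin (2 * n)) : Prop :=
  Function.minimalPeriod (tau X) i = k ∧ ∀ j, finRotate (2 * n) ((tau X)^[j] i) ≠ i

lemma PP_rot {n : ℕ} (k : ℕ) (X : Equiv.Perm (Fin (2 * n))) (i : Fin (2 * n)) :
    PP k (rotX X) (finRotate (2 * n) i) ↔ PP k X i := by
  unfold PP
  rw [mp_semi (finRotate (2 * n)) (finRotate (2 * n)).injective _ _ (tau_rot X)]
  have : ∀ j, (tau (rotX X))^[j] (finRotate (2 * n) i) = finRotate (2 * n) ((tau X)^[j] i) :=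
    fun j => iter_semi _ _ _ (tau_rot X) j i
  simp only [this, ne_eq, (finRotate (2 * n)).injective.eq_iff]

open Classical in
/-- the first count -/
noncomputable def cP (n g k : ℕ) (i : Fin (2 * n)) : ℝ :=
  ∑ X : Omega n g, (if PP k X.1 i then (1 : ℝ) else 0)

open Classical in
/-- the second count -/
noncomputable def cQ (n g k : ℕ) (i : Fin (2 * n)) : ℝ :=
  ∑ X : Omega n g, (if PP k X.1 (finRotate (2 * n) (tau X.1 i)) then (1 : ℝ) else 0)

lemma cP_rot (n g k : ℕ) (i : Fin (2 * n)) :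
    cP n g k (finRotate (2 * n) i) = cP n g k i := by
  unfold cP
  rw [← Equiv.sum_comp (rotE n g)]
  refine Finset.sum_congr rfl (fun X _ => ?_)
  rw [rotE_val]
  by_cases h : PP k X.1 i
  · rw [if_pos h, if_pos ((PP_rot k X.1 i).2 h)]
  · rw [if_neg h, if_neg (fun l => h ((PP_rot k X.1 i).1 l))]

lemma cQ_rot (n g k : ℕ) (i : Fin (2 * n)) :
    cQ n g k (finRotate (2 * n) i) = cQ n g k i := by
  unfold cQ
  rw [← Equiv.sum_comp (rotE n g)]
  refine Finset.sum_congr rfl (fun X _ => ?_)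
  rw [rotE_val, tau_rot]
  by_cases h : PP k X.1 (finRotate (2 * n) (tau X.1 i))
  · rw [if_pos h, if_pos ((PP_rot k X.1 _).2 h)]
  · rw [if_neg h, if_neg (fun l => h ((PP_rot k X.1 _).1 l))]

lemma sum_cQ (n g k : ℕ) : ∑ i, cQ n g k i = ∑ i, cP n g k i := by
  classical
  unfold cQ cP
  rw [Finset.sum_comm, Finset.sum_comm (s := Finset.univ (α := Fin (2 * n)))]
  refine Finset.sum_congr rfl (fun X _ => ?_)
  have h := Equiv.sum_comp (X.1.trans ((finRotate (2 * n)).trans (finRotate (2 * n))))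
    (fun i => if PP k X.1 i then (1 : ℝ) else 0)
  exact h

lemma cQ_eq_cP {n g : ℕ} (hn : 2 ≤ n) (k : ℕ) (i : Fin (2 * n)) :
    cQ n g k i = cP n g k i := by
  have h := sum_cQ n g k
  have h1 : ∀ j, cQ n g k j = cQ n g k i := fun j => const_of_rot _ (cQ_rot n g k) j i
  have h2 : ∀ j, cP n g k j = cP n g k i := fun j => const_of_rot _ (cP_rot n g k) j i
  simp only [h1, h2, Finset.sum_const, Finset.card_univ, Fintype.card_fin, nsmul_eq_mul] at h
  have h3 : ((2 * n : ℕ) : ℝ) ≠ 0 := by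
    have : 2 * n ≠ 0 := by omega
    exact_mod_cast this
  exact mul_left_cancel₀ h3 h

lemma facts_PP {n : ℕ} (hn : 2 ≤ n) {X : Equiv.Perm (Fin (2 * n))} (hX : IsDiagram n X)
    {k : ℕ} (hk : 1 ≤ k) (h : PP (k + 1) X ⟨1, by omega⟩) :
    2 ≤ (X ⟨1, by omega⟩ : ℕ) ∧ (X ⟨1, by omega⟩ : ℕ) + 2 ≤ 2 * n := by
  obtain ⟨h1, h2⟩ := h
  have hlt := (X ⟨1, by omega⟩).2
  have e1 : (X ⟨1, by omega⟩ : ℕ) ≠ 1 := fun h => (hX _).2 (Fin.ext h)
  have e0 : (X ⟨1, by omega⟩ : ℕ) ≠ 0 := by
    intro h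
    have h3 : tau X ⟨1, by omega⟩ = ⟨1, by omega⟩ := by
      apply Fin.ext
      rw [tau_val, h]
      simp only
      split_ifs <;> omega
    have h4 := Function.minimalPeriod_eq_one_iff_isFixedPt.2 h3
    omega
  have e2 : (X ⟨1, by omega⟩ : ℕ) + 1 ≠ 2 * n := by
    intro h
    have h3 : tau X ⟨1, by omega⟩ = ⟨0, by omega⟩ := by
      apply Fin.ext
      rw [tau_val, if_pos h]
    apply h2 1
    rw [Function.iterate_one, h3]
    apply Fin.ext
    rw [rot_val]
    simp only
    rw [if_neg (by omega)]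
  omega

open Classical in
/-- the sliding map -/
noncomputable def slideE {n g : ℕ} (hn : 2 ≤ n) (k : ℕ) (hk : 1 ≤ k) (X : Omega n g) :
    Omega n g :=
  if h : PP (k + 1) X.1 ⟨1, by omega⟩ then
    ⟨slide2 X.1 (X.1 ⟨1, by omega⟩) (facts_PP hn X.2.1 hk h).1 (facts_PP hn X.2.1 hk h).2,
      slide2_diagram X.2.1 _ _ _, by
        have e := slide2_numV hn (X := X.1) (X.1 ⟨1, by omega⟩ : ℕ)
          (facts_PP hn X.2.1 hk h).1 (facts_PP hn X.2.1 hk h).2 rfl
        rw [e]
        exact X.2.2⟩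
  else X

lemma sg2_one {n : ℕ} (hn : 2 ≤ n) (m : ℕ) (hm : 2 ≤ m) (hm' : m + 2 ≤ 2 * n) :
    sg2 m hm hm' (⟨1, by omega⟩ : Fin (2 * n)) = ⟨1, by omega⟩ := by
  apply Fin.ext
  show s2f (2 * n) m 1 = 1
  unfold s2f
  rw [if_neg (by omega), if_pos (by omega)]

lemma slide_PP {n : ℕ} (hn : 2 ≤ n) {X : Equiv.Perm (Fin (2 * n))}
    {k : ℕ} (hk : 1 ≤ k) (h : PP (k + 1) X ⟨1, by omega⟩) (m : ℕ)
    (hm : 2 ≤ m) (hm' : m + 2 ≤ 2 * n) (h1 : (X ⟨1, by omega⟩ : ℕ) = m) :
    PP k (slide2 X m hm hm') (finRotate (2 * n) (tau (slide2 X m hm hm') ⟨1, by omega⟩)) := by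
  obtain ⟨a1, c1, c2, c3, c4⟩ := tau3_facts hn m hm hm' h1
  have hrot0 : finRotate (2 * n) (⟨0, by omega⟩ : Fin (2 * n)) = ⟨1, by omega⟩ := by
    apply Fin.ext
    rw [rot_val]
    simp only
    rw [if_neg (by omega)]
  have hz : ∀ j, (tau X)^[j] ⟨1, by omega⟩ ≠ ⟨0, by omega⟩ := by
    intro j hj
    apply h.2 j
    rw [hj, hrot0]
  have hTinj : Function.Injective (tau X) := by
    intro a b hab
    exact X.injective ((finRotate (2 * n)).injective hab)
  obtain ⟨p1, p2⟩ := remove_point (tau X) (tau3 X m hm hm') hTinj ⟨1, by omega⟩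
    ⟨0, by omega⟩ ⟨m + 1, by omega⟩ a1 hz c2 c4 k hk h.1
  have e1 : tau (slide2 X m hm hm') ⟨1, by omega⟩ = sg2 m hm hm' ⟨0, by omega⟩ := by
    have := tau_slide2 X m hm hm' ⟨1, by omega⟩
    rw [sg2_one hn, c1] at this
    exact this
  have e2 : finRotate (2 * n) (sg2 m hm hm' ⟨0, by omega⟩)
      = sg2 m hm hm' (⟨m + 1, by omega⟩ : Fin (2 * n)) := by
    rw [← Equiv.symm_apply_eq]
    apply Fin.ext
    have h3 : (((sg2 m hm hm').symm (finRotate (2 * n) (sg2 m hm hm' ⟨0, by omega⟩)) :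
        Fin (2 * n)) : ℕ) = s2i (2 * n) m
          (finRotate (2 * n) (sg2 m hm hm' ⟨0, by omega⟩) : Fin (2 * n)) := rfl
    have h2 : ((sg2 m hm hm' (⟨0, by omega⟩ : Fin (2 * n)) : Fin (2 * n)) : ℕ)
        = s2f (2 * n) m 0 := rfl
    rw [h3, rot_val, h2, s2_calc hm hm' (by omega), if_pos rfl]
  rw [e1, e2]
  have hiter : ∀ j, (tau (slide2 X m hm hm'))^[j] (sg2 m hm hm' ⟨m + 1, by omega⟩)
      = sg2 m hm hm' ((tau3 X m hm hm')^[j] ⟨m + 1, by omega⟩) :=
    fun j => iter_semi _ _ _ (tau_slide2 X m hm hm') j _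
  refine ⟨?_, ?_⟩
  · rw [mp_semi (sg2 m hm hm') (sg2 m hm hm').injective _ _ (tau_slide2 X m hm hm')]
    exact p1
  · intro j hj
    rw [hiter, ← e2] at hj
    exact p2 j ((sg2 m hm hm').injective ((finRotate (2 * n)).injective hj))

lemma slide2_one {n : ℕ} (hn : 2 ≤ n) {X : Equiv.Perm (Fin (2 * n))} (m : ℕ)
    (hm : 2 ≤ m) (hm' : m + 2 ≤ 2 * n) (h1 : (X ⟨1, by omega⟩ : ℕ) = m) :
    (slide2 X m hm hm' ⟨1, by omega⟩ : ℕ) = m := by
  have h2 : (sg2 m hm hm').symm (⟨1, by omega⟩ : Fin (2 * n)) = ⟨1, by omega⟩ := by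
    rw [Equiv.symm_apply_eq, sg2_one hn]
  have h3 : slide2 X m hm hm' ⟨1, by omega⟩ = sg2 m hm hm' (X ⟨1, by omega⟩) := by
    show sg2 m hm hm' (X ((sg2 m hm hm').symm ⟨1, by omega⟩)) = _
    rw [h2]
  rw [h3]
  show s2f (2 * n) m (X ⟨1, by omega⟩) = m
  rw [h1]
  unfold s2f
  split_ifs <;> omega

lemma slide2_inj {n : ℕ} {X Y : Equiv.Perm (Fin (2 * n))} (j k : ℕ) (hj : 2 ≤ j)
    (hj' : j + 2 ≤ 2 * n) (hk : 2 ≤ k) (hk' : k + 2 ≤ 2 * n) (hjk : j = k)
    (h : slide2 X j hj hj' = slide2 Y k hk hk') : X = Y := by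
  subst hjk
  ext z
  have h2 := congrArg (fun Z : Equiv.Perm (Fin (2 * n)) =>
    (sg2 j hj hj').symm (Z (sg2 j hj hj' z))) h
  simp only [slide2, Equiv.trans_apply, Equiv.symm_apply_apply] at h2
  rw [h2]

lemma cP_le_cQ {n g : ℕ} (hn : 2 ≤ n) (k : ℕ) (hk : 1 ≤ k) :
    cP n g (k + 1) ⟨1, by omega⟩ ≤ cQ n g k ⟨1, by omega⟩ := by
  classical
  unfold cP cQ
  rw [Finset.sum_boole, Finset.sum_boole]
  have : (Finset.univ.filter (fun X : Omega n g => PP (k + 1) X.1 ⟨1, by omega⟩)).card ≤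
      (Finset.univ.filter (fun X : Omega n g => PP k X.1
        (finRotate (2 * n) (tau X.1 ⟨1, by omega⟩)))).card := by
    refine Finset.card_le_card_of_injOn (slideE hn k hk) ?_ ?_
    · intro X hX
      have h := (Finset.mem_filter.1 (Finset.mem_coe.1 hX)).2
      refine Finset.mem_coe.2 (Finset.mem_filter.2 ⟨Finset.mem_univ _, ?_⟩)
      unfold slideE
      rw [dif_pos h]
      exact slide_PP hn hk h _ _ _ rfl
    · intro X hX Y hY hXY
      have h := (Finset.mem_filter.1 (Finset.mem_coe.1 hX)).2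
      have k' := (Finset.mem_filter.1 (Finset.mem_coe.1 hY)).2
      unfold slideE at hXY
      rw [dif_pos h, dif_pos k'] at hXY
      have e := congrArg Subtype.val hXY
      have e2 := congrArg (fun Z : Equiv.Perm (Fin (2 * n)) => ((Z ⟨1, by omega⟩ : Fin _) : ℕ)) e
      simp only at e2
      rw [slide2_one hn _ _ _ rfl, slide2_one hn _ _ _ rfl] at e2
      exact Subtype.ext (slide2_inj _ _ _ _ _ _ e2 e)
  exact_mod_cast this

lemma cP_le {n g : ℕ} (hn : 2 ≤ n) (k : ℕ) (hk : 1 ≤ k) :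
    cP n g k ⟨1, by omega⟩ ≤ cnt1 n g ⟨1, by omega⟩ := by
  induction k with
  | zero => omega
  | succ k ih =>
    by_cases h0 : k = 0
    · subst h0
      unfold cP cnt1
      refine Finset.sum_le_sum (fun X _ => ?_)
      by_cases h : PP 1 X.1 ⟨1, by omega⟩
      · have h2 : tau X.1 ⟨1, by omega⟩ = ⟨1, by omega⟩ :=
          Function.minimalPeriod_eq_one_iff_isFixedPt.1 h.1
        rw [if_pos h, if_pos h2]
      · rw [if_neg h]
        split_ifs <;> norm_num
    · refine le_trans (cP_le_cQ hn k (by omega)) ?_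
      rw [cQ_eq_cP hn]
      exact ih (by omega)

lemma all_of_rot {m : ℕ} (P : Fin m → Prop) (h : ∀ a, P (finRotate m a) → P a)
    (a : Fin m) (ha : P a) (b : Fin m) : P b := by
  have down : ∀ k l : ℕ, ∀ hk : k + l < m, P ⟨k + l, hk⟩ → P ⟨k, by omega⟩ := by
    intro k l
    induction l with
    | zero => intro hk hp; exact hp
    | succ l ih =>
      intro hk hp
      apply ih (by omega)
      apply h
      have : finRotate m ⟨k + l, by omega⟩ = ⟨k + (l + 1), hk⟩ := by
        apply Fin.ext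
        rw [rot_val]
        simp only
        rw [if_neg (by omega)]
        omega
      rw [this]
      exact hp
  have ha0 := a.2
  have h0 : P ⟨0, by omega⟩ := down 0 a (by omega) (by
    have : (⟨0 + (a : ℕ), by omega⟩ : Fin m) = a := Fin.ext (by simp)
    rw [this]; exact ha)
  have hl : P ⟨m - 1, by omega⟩ := by
    apply h
    have : finRotate m ⟨m - 1, by omega⟩ = ⟨0, by omega⟩ := by
      apply Fin.ext
      rw [rot_val]
      simp only
      rw [if_pos (by omega)]
    rw [this]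
    exact h0
  have hb := b.2
  have := down b (m - 1 - b) (by omega) (by
    have : (⟨(b : ℕ) + (m - 1 - b), by omega⟩ : Fin m) = ⟨m - 1, by omega⟩ :=
      Fin.ext (by simp only; omega)
    rw [this]; exact hl)
  exact this

open Classical in
/-- the weight of a vertex -/
noncomputable def w2 {n : ℕ} (K : ℕ) (X : Equiv.Perm (Fin (2 * n))) (i : Fin (2 * n)) : ℝ :=
  ∑ k ∈ Finset.Icc 1 K, (if PP k X i then (1 : ℝ) else 0) + 1 / (K + 1)

lemma w2_ge {n : ℕ} (K : ℕ) (X : Equiv.Perm (Fin (2 * n))) (i : Fin (2 * n)) :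
    1 / ((K : ℝ) + 1) ≤ w2 K X i := by
  classical
  unfold w2
  have : (0 : ℝ) ≤ ∑ k ∈ Finset.Icc 1 K, (if PP k X i then (1 : ℝ) else 0) :=
    Finset.sum_nonneg (fun k _ => by split_ifs <;> norm_num)
  linarith

lemma w2_one {n : ℕ} (K : ℕ) (X : Equiv.Perm (Fin (2 * n))) (i : Fin (2 * n)) (d : ℕ)
    (h1 : 1 ≤ d) (h2 : d ≤ K) (h : PP d X i) : 1 ≤ w2 K X i := by
  classical
  unfold w2
  have h3 : (1 : ℝ) ≤ ∑ k ∈ Finset.Icc 1 K, (if PP k X i then (1 : ℝ) else 0) := by
    have h4 := Finset.single_le_sum (f := fun k => if PP k X i then (1 : ℝ) else 0)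
      (s := Finset.Icc 1 K) (fun k _ => by split_ifs <;> norm_num)
      (Finset.mem_Icc.2 ⟨h1, h2⟩)
    rw [if_pos h] at h4
    exact h4
  have h5 : (0 : ℝ) ≤ 1 / ((K : ℝ) + 1) := by positivity
  linarith

lemma numV_le2 {n g : ℕ} (hg : 2 * g < n) (X : Omega n g) (K : ℕ) :
    (numV n X.1 : ℝ) ≤ ∑ i, w2 K X.1 i := by
  classical
  have hfin : Fintype (Quot (rel n X.1)) := Fintype.ofFinite _
  have h1 : (numV n X.1 : ℝ) = ∑ _q : Quot (rel n X.1), (1 : ℝ) := by
    have h0 : numV n X.1 = Nat.card (Quot (rel n X.1)) := rfl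
    rw [h0, Nat.card_eq_fintype_card]; simp
  rw [h1, ← Finset.sum_fiberwise (s := (Finset.univ : Finset (Fin (2 * n))))
    (g := fun i => Quot.mk (rel n X.1) i) (f := w2 K X.1)]
  refine Finset.sum_le_sum (fun q _ => ?_)
  induction q using Quot.ind with
  | _ i =>
    have hK : (0 : ℝ) < 1 / ((K : ℝ) + 1) := by positivity
    have hnn : ∀ i, 0 ≤ w2 K X.1 i := fun i => le_trans hK.le (w2_ge K X.1 i)
    have hm : ∀ k, Quot.mk (rel n X.1) (tau X.1 k) = Quot.mk (rel n X.1) k := by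
      intro k
      have h2 : rel n X.1 k (tau X.1 k) := rfl
      exact (Quot.sound h2).symm
    have hmj : ∀ j, Quot.mk (rel n X.1) ((tau X.1)^[j] i) = Quot.mk (rel n X.1) i := by
      intro j
      induction j with
      | zero => rfl
      | succ j ih => rw [Function.iterate_succ_apply', hm, ih]
    have hTinj : Function.Injective (tau X.1) := by
      intro a b hab
      exact X.1.injective ((finRotate (2 * n)).injective hab)
    have hper : i ∈ Function.periodicPts (tau X.1) := hTinj.mem_periodicPts i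
    set d := Function.minimalPeriod (tau X.1) i with hd
    have hd0 : 0 < d := Function.minimalPeriod_pos_of_mem_periodicPts hper
    by_cases hdK : K + 1 ≤ d
    · have hinj : Set.InjOn (fun j => (tau X.1)^[j] i) (Finset.range d : Set ℕ) := by
        have h3 := Function.iterate_injOn_Iio_minimalPeriod (f := tau X.1) (x := i)
        rw [← hd] at h3
        intro a ha b hb hab
        exact h3 (by simpa using ha) (by simpa using hb) hab
      have hcard : ((Finset.range d).image (fun j => (tau X.1)^[j] i)).card = d := by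
        rw [Finset.card_image_of_injOn hinj, Finset.card_range]
      have h6 : (1 : ℝ) ≤ ∑ _j ∈ (Finset.range d).image (fun j => (tau X.1)^[j] i),
          1 / ((K : ℝ) + 1) := by
        rw [Finset.sum_const, hcard, nsmul_eq_mul, mul_one_div, le_div_iff₀ (by positivity)]
        rw [one_mul]
        exact_mod_cast hdK
      refine le_trans h6 ?_
      refine le_trans (Finset.sum_le_sum fun j _ => w2_ge K X.1 j) ?_
      refine Finset.sum_le_sum_of_subset_of_nonneg ?_ (fun j _ _ => hnn j)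
      intro j hj
      obtain ⟨l, _, rfl⟩ := Finset.mem_image.1 hj
      exact Finset.mem_filter.2 ⟨Finset.mem_univ _, hmj l⟩
    · have hex : ∃ j0, ∀ j, finRotate (2 * n) ((tau X.1)^[j] ((tau X.1)^[j0] i))
          ≠ (tau X.1)^[j0] i := by
        by_contra hcon
        push Not at hcon
        have hall := all_of_rot (fun a => ∃ j, (tau X.1)^[j] i = a) (by
          rintro a ⟨j0, hj0⟩
          obtain ⟨j, hj⟩ := hcon j0
          refine ⟨j + j0, ?_⟩
          rw [Function.iterate_add_apply]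
          apply (finRotate (2 * n)).injective
          rw [hj, hj0]) i ⟨0, rfl⟩
        have hsub : Subsingleton (Quot (rel n X.1)) := by
          constructor
          intro p q
          induction p using Quot.ind with
          | _ a =>
            induction q using Quot.ind with
            | _ b =>
              obtain ⟨ja, rfl⟩ := hall a
              obtain ⟨jb, rfl⟩ := hall b
              rw [hmj, hmj]
        have h7 : Nat.card (Quot (rel n X.1)) ≤ 1 := Finite.card_le_one_iff_subsingleton.2 hsub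
        have h8 : numV n X.1 = Nat.card (Quot (rel n X.1)) := rfl
        have h9 := X.2.2
        omega
      obtain ⟨j0, hj0⟩ := hex
      have hPP : PP d X.1 ((tau X.1)^[j0] i) :=
        ⟨Function.minimalPeriod_apply_iterate hper j0, hj0⟩
      refine le_trans (w2_one K X.1 _ d hd0 (by omega) hPP) ?_
      exact Finset.single_le_sum (f := w2 K X.1) (fun j _ => hnn j)
        (Finset.mem_filter.2 ⟨Finset.mem_univ _, hmj j0⟩)

lemma many_short2 {n g : ℕ} (hn : 2 ≤ n) (hg : 2 * g < n) (K : ℕ) :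
    (Fintype.card (Omega n g) : ℝ) * (n + 1 - 2 * g) ≤
      2 * n * (K * (withChord n g ⟨1, by omega⟩ ⟨0, by omega⟩).card +
        (Fintype.card (Omega n g) : ℝ) / (K + 1)) := by
  classical
  set N : ℝ := (Fintype.card (Omega n g) : ℝ) with hN
  set v1 : Fin (2 * n) := ⟨1, by omega⟩ with hv1
  have h1 : ∑ X : Omega n g, (numV n X.1 : ℝ) = N * (n + 1 - 2 * g) := by
    have : ∀ X : Omega n g, (numV n X.1 : ℝ) = n + 1 - 2 * g := by
      intro X
      have h2 := X.2.2
      have h3 : (numV n X.1 : ℝ) + 2 * g = n + 1 := by exact_mod_cast h2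
      linarith
    simp only [this, Finset.sum_const, Finset.card_univ, nsmul_eq_mul]
    rfl
  have h2 : ∑ X : Omega n g, (numV n X.1 : ℝ) ≤ ∑ X : Omega n g, ∑ i, w2 K X.1 i :=
    Finset.sum_le_sum fun X _ => numV_le2 hg X K
  rw [Finset.sum_comm] at h2
  have h5 := cnt1_eq (g := g) hn
  rw [← hv1] at h5
  rw [← h5]
  have h3 : ∀ i : Fin (2 * n), ∑ X : Omega n g, w2 K X.1 i
      ≤ K * cnt1 n g v1 + N / (K + 1) := by
    intro i
    unfold w2
    rw [Finset.sum_add_distrib, Finset.sum_comm]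
    have e1 : ∑ k ∈ Finset.Icc 1 K, ∑ X : Omega n g, (if PP k X.1 i then (1 : ℝ) else 0)
        ≤ ∑ _k ∈ Finset.Icc 1 K, cnt1 n g v1 := by
      refine Finset.sum_le_sum (fun k hk => ?_)
      have e2 : ∑ X : Omega n g, (if PP k X.1 i then (1 : ℝ) else 0) = cP n g k i := rfl
      rw [e2, const_of_rot (cP n g k) (cP_rot n g k) i v1]
      exact cP_le hn k (Finset.mem_Icc.1 hk).1
    have e3 : ∑ _k ∈ Finset.Icc 1 K, cnt1 n g v1 = K * cnt1 n g v1 := by
      rw [Finset.sum_const, Nat.card_Icc, nsmul_eq_mul]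
      congr 1
    have e4 : ∑ _X : Omega n g, (1 : ℝ) / (K + 1) = N / (K + 1) := by
      rw [Finset.sum_const, Finset.card_univ, nsmul_eq_mul, mul_one_div]
    rw [e4]
    rw [e3] at e1
    linarith
  have h4 : ∑ i : Fin (2 * n), ∑ X : Omega n g, w2 K X.1 i
      ≤ ∑ _i : Fin (2 * n), (K * cnt1 n g v1 + N / (K + 1)) :=
    Finset.sum_le_sum fun i _ => h3 i
  rw [Finset.sum_const, Finset.card_univ, Fintype.card_fin, nsmul_eq_mul] at h4
  rw [h1] at h2
  push_cast at h4
  exact le_trans h2 h4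

lemma short_bound {n g : ℕ} (hn : 2 ≤ n) (hg : 2 * g < n) :
    (Fintype.card (Omega n g) : ℝ) * (n + 1 - 2 * g) ^ 2 ≤
      16 * n ^ 2 * (withChord n g ⟨1, by omega⟩ ⟨0, by omega⟩).card := by
  set N : ℝ := (Fintype.card (Omega n g) : ℝ) with hN
  set C : ℝ := ((withChord n g ⟨1, by omega⟩ ⟨0, by omega⟩).card : ℝ) with hC
  have hN0 : 0 ≤ N := Nat.cast_nonneg _
  have hC0 : 0 ≤ C := Nat.cast_nonneg _
  obtain ⟨V, hV⟩ : ∃ V : ℕ, V + 2 * g = n + 1 := ⟨n + 1 - 2 * g, by omega⟩
  have hVr : (n : ℝ) + 1 - 2 * g = V := by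
    have : (V : ℝ) + 2 * g = n + 1 := by exact_mod_cast hV
    linarith
  have hV0 : 0 < V := by omega
  have hVr0 : (0 : ℝ) < V := by exact_mod_cast hV0
  set K := 4 * n / V with hK
  have hK1 : K * V ≤ 4 * n := Nat.div_mul_le_self _ _
  have hK2 : 4 * n < (K + 1) * V := by
    have := Nat.lt_div_mul_add (a := 4 * n) hV0
    rw [← hK] at this
    rw [Nat.add_mul, one_mul]
    exact this
  have hK1r : (K : ℝ) * V ≤ 4 * n := by exact_mod_cast hK1
  have hK2r : 4 * (n : ℝ) < (K + 1) * V := by exact_mod_cast hK2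
  have h := many_short2 hn hg K
  rw [← hN, ← hC, hVr] at h
  rw [hVr]
  have hn0 : (0 : ℝ) ≤ n := Nat.cast_nonneg _
  have hKp : (0 : ℝ) < (K : ℝ) + 1 := by positivity
  have h1 : 2 * n * (N / (K + 1)) ≤ N * V / 2 := by
    rw [mul_div_assoc', div_le_iff₀ hKp]
    nlinarith
  have h2 : N * V / 2 ≤ 2 * n * (K * C) := by linarith [mul_add (2 * (n : ℝ)) (K * C) (N / (K + 1))]
  have h3 : N * V / 2 * V ≤ 2 * n * (K * C) * V := mul_le_mul_of_nonneg_right h2 hVr0.le
  have h4 : 2 * n * (K * C) * V = 2 * n * C * (K * V) := by ring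
  have h5 : 2 * n * C * (K * V) ≤ 2 * n * C * (4 * n) :=
    mul_le_mul_of_nonneg_left hK1r (by positivity)
  nlinarith

/-- Upper bounds for the spectral gap of the fixed genus chord swap chain, for every genus
`g` and all `n ≥ 2` with `n > 2 g`: the gap is at most `(2 n - 1) / (2 n (n - 1))` and at most
`8 n / ((n - 1) (n + 1 - 2 g) ^ 2)`. -/
theorem result (n g : ℕ) (hn : 2 ≤ n) (hg : 2 * g < n) :
    gap n g ≤ (2 * n - 1) / (2 * n * (n - 1)) ∧
    gap n g ≤ 8 * n / ((n - 1) * (n + 1 - 2 * g) ^ 2) := by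
  have hn' : (2 : ℝ) ≤ n := by exact_mod_cast hn
  have hc : 4 * (n.choose 2 : ℝ) = 2 * n * (n - 1) := by
    rw [Nat.cast_choose_two]; ring
  have hn1 : (0 : ℝ) < n - 1 := by linarith
  have hn0 : (0 : ℝ) < n := by linarith
  have hD : (0 : ℝ) < 2 * n * (n - 1) := by positivity
  have hcancel : 1 / (2 * (n : ℝ) * (n - 1)) * (Fintype.card (Omega n g) : ℝ)
      * (2 * n * (n - 1)) = Fintype.card (Omega n g) := by
    rw [mul_assoc, mul_comm (Fintype.card (Omega n g) : ℝ), ← mul_assoc,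
      one_div_mul_cancel hD.ne', one_mul]
  constructor
  · obtain ⟨A, B, h3, h4, h5⟩ := exists_chord n g hn (nontrivial_Omega hn hg)
    have h6 := gap_le_aux n g A B h3 h4
    have h7 : (0 : ℝ) < (withChord n g A B).card := by exact_mod_cast h3.card_pos
    refine le_trans h6 ?_
    rw [hc, div_le_div_iff₀ h7 hD, hcancel]
    exact h5
  · have h1 := short_bound hn hg
    have hpos : (0 : ℝ) < n + 1 - 2 * g := by
      have : (2 * g : ℝ) < n := by exact_mod_cast hg
      linarith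
    have hN : (0 : ℝ) < (Fintype.card (Omega n g) : ℝ) := by
      have := (nontrivial_Omega hn hg).to_nonempty
      exact_mod_cast Fintype.card_pos
    have h3 : (withChord n g ⟨1, by omega⟩ ⟨0, by omega⟩).Nonempty := by
      rw [← Finset.card_pos]
      by_contra hcon
      have h0 : (withChord n g ⟨1, by omega⟩ ⟨0, by omega⟩).card = 0 := by omega
      rw [h0] at h1
      have := mul_pos hN (pow_pos hpos 2)
      simp only [Nat.cast_zero, mul_zero] at h1
      linarith
    have h6 := gap_le_aux n g _ _ h3 (compl_nonempty hn hg)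
    have h7 : (0 : ℝ) < (withChord n g ⟨1, by omega⟩ ⟨0, by omega⟩).card := by
      exact_mod_cast h3.card_pos
    refine le_trans h6 ?_
    rw [hc]
    have hE : (0 : ℝ) < (n - 1) * (n + 1 - 2 * g) ^ 2 := by positivity
    rw [div_le_div_iff₀ h7 hE]
    have h8 : 1 / (2 * (n : ℝ) * (n - 1)) * (Fintype.card (Omega n g) : ℝ)
        * ((n - 1) * (n + 1 - 2 * g) ^ 2)
        = (Fintype.card (Omega n g) : ℝ) * (n + 1 - 2 * g) ^ 2 / (2 * n) := by
      field_simp
    rw [h8, div_le_iff₀ (by positivity)]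
    linarith

end Pool.Agent.Results.MP_0dc576_pr.GapUpperBound
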